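import Pool.Agent.Y382.PAR.Asm
import Pool.Agent.Y77.PAR.ISO
import Pool.Agent.Y459.PAR.PRI
import Pool.Agent.Y329.PAR.SUB
import Pool.Agent.Y410.PAR.EXT
import Pool.Agent.Y970.PAR.FIV
import Pool.Agent.Y994.PAR.NIN
import Pool.Agent.Y43.PAR.SML
import Pool.Agent.Y65.PAR.ARI

/-!
# Parities of complete mappings and their orthomorphisms: groups of odd order

For a complete mapping `f` of a finite group `G`, with orthomorphism `F x = x f(x)`, there are four possibilities for the
pair of signs of `f` and `F`. We prove that for groups of odd order all four occur if and only if the order is not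
`1`, `3` or `5`. Moreover, if `N` is a normal subgroup of an arbitrary finite group `G` for which all four occur and
`G / N` has a complete mapping, then all four occur for `G`; this applies to all normal subgroups of odd order different
from `1`, `3`, `5`.

Proof. For a prime `p ≥ 7` the maps `x ↦ a x` of the cyclic group of order `p` suffice, since all patterns of two
consecutive quadratic residues or nonresidues occur. In a group of odd order a complete mapping of a subgroup is extended
by the identity, which multiplies the signs by fixed factors. Groups of order nine are treated directly. If there is a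
normal subgroup of order five, independent changes of the complete mapping on two of its cosets give all four pairs.
The parts were proved by helper77 (transport, prime order), helper459 (residues), helper329 (subgroups), helper410
(extensions), helper970 (order five), helper994 (order nine), helper43 (orders 1, 3, 5), helper65 (subgroups of given
order) and helper382.
-/

set_option autoImplicit false

namespace Pool.Agent.Results.MP_281388_al.OddOrder

universe u

/-- For all signs `a, b` the group `G` has a complete mapping `f` such that `f` has sign `a` and the associated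
orthomorphism `x ↦ x f(x)` has sign `b`. -/
def AllFour (G : Type u) [Group G] [Fintype G] [DecidableEq G] : Prop :=
  ∀ a b : ℤˣ, ∃ f : Equiv.Perm G, ∃ hf : Function.Bijective (fun x : G => x * f x),
    Equiv.Perm.sign f = a ∧ Equiv.Perm.sign (Equiv.ofBijective (fun x : G => x * f x) hf) = b

open Pool.Agent.Y382.PAR

theorem main (G : Type u) [Group G] [Finite G] (hodd : Odd (Nat.card G)) :
    AllPar G ↔ Nat.card G ≠ 1 ∧ Nat.card G ≠ 3 ∧ Nat.card G ≠ 5 := by
  refine odd_res (fun G _ _ h h1 h3 h5 => odd_all ?_ Pool.Agent.Y329.PAR.t_SUB Pool.Agent.Y970.PAR.t_FIV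
    Pool.Agent.Y994.PAR.t_NIN ?_ ?_ G h h1 h3 h5) Pool.Agent.Y43.PAR.t_SML G hodd
  · intro G _ _ p hp hp7 hG
    haveI : Fact p.Prime := ⟨hp⟩
    exact Pool.Agent.Y77.PAR.prime_of Pool.Agent.Y459.PAR.t_PRI G p hp7 hG
  · intro G _ _ h h1 h3 h5
    exact Pool.Agent.Y65.PAR.t_ARI G h h1 h3 h5
  · intro G _ _ h
    obtain ⟨N, h1, h2, h3, _⟩ := Pool.Agent.Y65.PAR.t_ARI2 G h
    exact ⟨N, h1, h2, h3⟩

/-- **Theorem.** (1) A finite group of odd order has complete mappings with all four combinations of the signs of the
complete mapping and of its orthomorphism if and only if its order is not `1`, `3` or `5`. (2) Let `N` be a normal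
subgroup of a finite group `G` such that `G / N` has a complete mapping. If all four combinations occur for `N`, in
particular if the order of `N` is odd and different from `1`, `3`, `5`, then all four occur for `G`. -/
theorem result :
    (∀ (G : Type u) [Group G] [Fintype G] [DecidableEq G], Odd (Fintype.card G) →
      (AllFour G ↔ Fintype.card G ≠ 1 ∧ Fintype.card G ≠ 3 ∧ Fintype.card G ≠ 5)) ∧
    (∀ (G : Type u) [Group G] [Fintype G] [DecidableEq G] (N : Subgroup G) [N.Normal] [Fintype N],
      (∃ e : Equiv.Perm (G ⧸ N), Function.Bijective (fun x : G ⧸ N => x * e x)) →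
      AllFour N ∨ (Odd (Fintype.card N) ∧ Fintype.card N ≠ 1 ∧ Fintype.card N ≠ 3 ∧ Fintype.card N ≠ 5) →
      AllFour G) := by
  have h1 : ∀ (G : Type u) [Group G] [Fintype G] [DecidableEq G], Odd (Fintype.card G) →
      (AllFour G ↔ Fintype.card G ≠ 1 ∧ Fintype.card G ≠ 3 ∧ Fintype.card G ≠ 5) := by
    intro G _ _ _ hodd
    rw [← Nat.card_eq_fintype_card] at hodd ⊢
    exact (allPar_iff G).symm.trans (main G hodd)
  refine ⟨h1, fun G _ _ _ N _ _ he hN => ?_⟩
  have hN' : AllPar N := by
    rcases hN with h | ⟨h, h2⟩
    · exact (allPar_iff N).2 h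
    · exact (allPar_iff N).2 ((h1 N h).2 h2)
  obtain ⟨e, he⟩ := he
  exact (allPar_iff G).1 (Pool.Agent.Y410.PAR.t_EXT G N ⟨e, Equiv.ofBijective _ he, fun x => rfl⟩ hN')

end Pool.Agent.Results.MP_281388_al.OddOrder
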